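import Pool.Agent.Helper1.DS.Lower

/-!
# Strong representative systems of `PG(2, K)`, `K` an extension of degree `h` of a field with `s` elements

For `4 r ≤ h + 1` there are `s ^ (h + r)` points with private non-vertical lines. `E` is the extension of `k` of degree `2 r`,
`ι : E → K` sends `e ^ i` to `g ^ i` (`i < 2 r`), `Λ : K → E` sends `g ^ j` to `e ^ j` (`j < h`), so that
`Λ (ι x ι y) = x y`. The points are the `(ι x, y)` with `Tr (Λ y) = N x`, the slope is `ι (conj x)`.
-/

set_option autoImplicit false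

namespace Pool.Agent.Helper68.DQ

open Pool.Agent.Helper1.DS Polynomial

open scoped LinearAlgebra.Projectivization

/-- the basic count -/
theorem srs_aux {K E : Type*} [Field K] [Finite K] [Field E] [Finite E] (σ : E →+* E) (hσ : ∀ x, σ (σ x) = x)
    (ι : E → K) (Λ : K →+ E) (hsub : ∀ x y, ι (x - y) = ι x - ι y) (hΛ : ∀ x y, Λ (ι x * ι y) = x * y)
    {m : ℕ} (hm : ∀ S : Set E, (∀ x ∈ S, σ x = x) → Nat.card S ≤ m) (hc : ∃ c : E, c + σ c ≠ 0)
    {n : ℕ} (hn : n * m ≤ Nat.card E * Nat.card K) (hm0 : 0 < m) :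
    2 ^ n ≤ iNum (ℙ K (Fin 3 → K)) (ℙ K (Fin 3 → K)) := by
  classical
  obtain ⟨c, hc⟩ := hc
  have hσinj : Function.Injective σ := σ.injective
  -- the trace
  let T : K →+ E := Λ + σ.toAddMonoidHom.comp Λ
  have hT : ∀ y, T y = Λ y + σ (Λ y) := fun y => rfl
  have hsec : ∀ x : E, ∃ y : K, T y = x * σ x := by
    intro x
    refine ⟨ι 1 * ι (x * σ x * (c / (c + σ c))), ?_⟩
    rw [hT, hΛ, one_mul]
    simp only [map_mul, map_div₀, map_add, hσ]
    rw [add_comm (σ c) c, mul_comm (σ x) x, ← mul_add, ← add_div, div_self hc, mul_one]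
  choose y0 hy0 using hsec
  let Ω := {w : E × K // T w.2 = w.1 * σ w.1}
  have hΩ : Nat.card E * Nat.card T.ker ≤ Nat.card Ω := by
    rw [← Nat.card_prod]
    refine Nat.card_le_card_of_injective (fun v : E × T.ker => (⟨(v.1, y0 v.1 + v.2), ?_⟩ : Ω)) ?_
    · have h1 : T (v.2 : K) = 0 := v.2.2
      show T (y0 v.1 + v.2) = v.1 * σ v.1
      rw [map_add, h1, add_zero, hy0]
    · rintro ⟨a, b⟩ ⟨a', b'⟩ h
      have h1 := congrArg (fun w : Ω => w.1) h
      obtain ⟨h2, h3⟩ := Prod.mk.inj h1
      subst h2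
      have h4 : b = b' := Subtype.ext (add_left_cancel h3)
      rw [h4]
  have hker : Nat.card K ≤ Nat.card T.ker * m := by
    have h1 : Nat.card T.range ≤ m := by
      refine hm (T.range : Set E) ?_
      rintro _ ⟨y, rfl⟩
      rw [hT, map_add, hσ, add_comm]
    have h2 : Nat.card T.ker * Nat.card T.range = Nat.card K := by
      rw [← AddSubgroup.index_ker, AddSubgroup.card_mul_index]
    rw [← h2]
    exact Nat.mul_le_mul_left _ h1
  have hcard : n ≤ Nat.card Ω := by
    have h3 : n * m ≤ Nat.card Ω * m := by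
      calc n * m ≤ Nat.card E * Nat.card K := hn
        _ ≤ Nat.card E * (Nat.card T.ker * m) := Nat.mul_le_mul_left _ hker
        _ = (Nat.card E * Nat.card T.ker) * m := by ring
        _ ≤ _ := Nat.mul_le_mul_right _ hΩ
    exact Nat.le_of_mul_le_mul_right h3 hm0
  refine (Nat.pow_le_pow_right (by norm_num) hcard).trans ?_
  refine aff_lower (Ω := Ω) (fun w => ι w.1.1) (fun w => w.1.2) (fun w => ι (σ w.1.1)) ?_
  rintro ⟨⟨a, y⟩, ha⟩ ⟨⟨b, z⟩, hb⟩ h
  simp only at h ha hb
  have h1 : Λ y - Λ z = σ b * (a - b) := by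
    rw [← map_sub, h, ← hsub, hΛ]
  have h2 : T y - T z = σ b * (a - b) + σ (σ b * (a - b)) := by
    rw [hT, hT, ← h1, map_sub]
    ring
  rw [ha, hb, map_mul, hσ, map_sub] at h2
  have h3 : (a - b) * σ (a - b) = 0 := by
    rw [map_sub]
    linear_combination h2
  have h4 : a - b = 0 := by
    rcases mul_eq_zero.1 h3 with h5 | h5
    · exact h5
    · exact hσinj (by rw [h5, map_zero])
  have h5 : a = b := sub_eq_zero.1 h4
  have h6 : y = z := by
    have h7 : ι a - ι b = 0 := by rw [h5, sub_self]
    rw [h7, mul_zero] at h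
    exact sub_eq_zero.1 h
  subst h5
  subst h6
  rfl

theorem exists_ext (k : Type*) [Field k] [Finite k] {n : ℕ} (hn : 0 < n) :
    ∃ (E : Type) (_ : Field E) (_ : Finite E) (_ : Algebra k E), Module.finrank k E = n := by
  obtain ⟨p, hp⟩ := CharP.exists k
  have hpp : p.Prime := (CharP.char_is_prime_or_zero k p).resolve_right (CharP.char_ne_zero_of_finite k p)
  have : Fact p.Prime := ⟨hpp⟩
  have : NeZero n := ⟨by omega⟩
  refine ⟨FiniteField.Extension k p n, inferInstance, inferInstance, inferInstance, ?_⟩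
  have h0 : Nat.card (FiniteField.Extension k p n) = Nat.card k ^ n := FiniteField.natCard_extension k p n
  have h1 : Nat.card (FiniteField.Extension k p n) =
      Nat.card k ^ Module.finrank k (FiniteField.Extension k p n) := Module.natCard_eq_pow_finrank (K := k)
  rw [h0] at h1
  exact (Nat.pow_right_injective (Finite.one_lt_card : 1 < Nat.card k) h1).symm

theorem field_lower {k K : Type*} [Field k] [Field K] [Finite K] [Algebra k K] {r h : ℕ}
    (hh : Module.finrank k K = h) (hr : 4 * r ≤ h + 1) :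
    2 ^ (Nat.card k ^ (h + r)) ≤ iNum (ℙ K (Fin 3 → K)) (ℙ K (Fin 3 → K)) := by
  classical
  have : Finite k := Finite.of_injective (algebraMap k K) (algebraMap k K).injective
  have : FiniteDimensional k K := Module.Finite.of_finite
  have hcardK : Nat.card K = Nat.card k ^ h := by rw [← hh, Module.natCard_eq_pow_finrank (K := k)]
  rcases Nat.eq_zero_or_pos r with rfl | hr0
  · rw [add_zero, ← hcardK]
    refine aff_lower (Ω := K) (fun _ => 0) id (fun _ => 0) ?_
    intro i j hij
    simp only [sub_self, mul_zero, id_eq] at hij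
    exact sub_eq_zero.1 hij
  obtain ⟨p, hp⟩ := CharP.exists k
  have hpp : p.Prime := (CharP.char_is_prime_or_zero k p).resolve_right (CharP.char_ne_zero_of_finite k p)
  have : Fact p.Prime := ⟨hpp⟩
  obtain ⟨E, _, _, _, hfE⟩ := exists_ext k (show 0 < 2 * r by omega)
  have : FiniteDimensional k E := Module.Finite.of_finite
  have hcardE : Nat.card E = Nat.card k ^ (2 * r) := by
    rw [← hfE, Module.natCard_eq_pow_finrank (K := k)]
  -- the power bases
  let bK := Field.powerBasisOfFiniteOfSeparable k K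
  let bE := Field.powerBasisOfFiniteOfSeparable k E
  have hdK : bK.dim = h := bK.finrank.symm.trans hh
  have hdE : bE.dim = 2 * r := bE.finrank.symm.trans hfE
  let ι : E →ₗ[k] K := bE.basis.constr k (fun i => bK.gen ^ (i : ℕ))
  let Λ : K →ₗ[k] E := bK.basis.constr k (fun i => bE.gen ^ (i : ℕ))
  have hι : ∀ i : ℕ, i < 2 * r → ι (bE.gen ^ i) = bK.gen ^ i := by
    intro i hi
    have h1 : bE.gen ^ i = bE.basis ⟨i, by rw [hdE]; exact hi⟩ := by rw [bE.basis_eq_pow]
    rw [h1, Module.Basis.constr_basis]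
  have hΛ : ∀ i : ℕ, i < h → Λ (bK.gen ^ i) = bE.gen ^ i := by
    intro i hi
    have h1 : bK.gen ^ i = bK.basis ⟨i, by rw [hdK]; exact hi⟩ := by rw [bK.basis_eq_pow]
    rw [h1, Module.Basis.constr_basis]
  have hmul : ∀ x y, Λ (ι x * ι y) = x * y := by
    have h1 : ((LinearMap.mul k K).compl₁₂ ι ι).compr₂ Λ = LinearMap.mul k E := by
      refine bE.basis.ext fun i => bE.basis.ext fun j => ?_
      have hi : (i : ℕ) < 2 * r := i.2.trans_eq hdE
      have hj : (j : ℕ) < 2 * r := j.2.trans_eq hdE
      rw [LinearMap.compr₂_apply, LinearMap.compl₁₂_apply, LinearMap.mul_apply', LinearMap.mul_apply',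
        bE.basis_eq_pow, bE.basis_eq_pow, hι _ hi, hι _ hj, ← pow_add, ← pow_add, hΛ _ (by omega)]
    intro x y
    have h2 := LinearMap.congr_fun (LinearMap.congr_fun h1 x) y
    exact h2
  -- the conjugation
  obtain ⟨m, hm⟩ : ∃ m : ℕ, Nat.card k = p ^ m := by
    have : Fintype k := Fintype.ofFinite k
    obtain ⟨n, -, hn⟩ := FiniteField.card k p
    exact ⟨n, by rw [Nat.card_eq_fintype_card, hn]⟩
  have : CharP E p := charP_of_injective_algebraMap (algebraMap k E).injective p
  have : ExpChar E p := ExpChar.prime hpp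
  let σ : E →+* E := iterateFrobenius E p (m * r)
  have hσ : ∀ x, σ x = x ^ (Nat.card k ^ r) := by
    intro x
    show iterateFrobenius E p (m * r) x = _
    rw [iterateFrobenius_def, hm, pow_mul]
  have hσσ : ∀ x, σ (σ x) = x := by
    intro x
    have : Fintype E := Fintype.ofFinite E
    rw [hσ, hσ, ← pow_mul, ← pow_add, ← two_mul, ← hcardE, Nat.card_eq_fintype_card, FiniteField.pow_card]
  have hs1 : 1 < Nat.card k := Finite.one_lt_card
  have hs2 : 1 < Nat.card k ^ r := Nat.one_lt_pow (by omega) hs1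
  refine srs_aux (E := E) σ hσσ ι Λ.toAddMonoidHom (fun x y => map_sub ι x y) hmul
    (m := Nat.card k ^ r) ?_ ?_ ?_ (by positivity)
  · intro S hS
    have hdeg : (X ^ (Nat.card k ^ r) - X : E[X]).natDegree = Nat.card k ^ r := by
      compute_degree!
      · rw [if_neg (by omega)]
        norm_num
      · omega
    refine card_le_of_roots (p := X ^ (Nat.card k ^ r) - X) ?_ hdeg.le ?_
    · intro h0
      rw [h0, natDegree_zero] at hdeg
      omega
    · intro x hx
      rw [eval_sub, eval_pow, eval_X, ← hσ, hS x hx, sub_self]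
  · by_contra hcon
    push Not at hcon
    have hdeg : (X ^ (Nat.card k ^ r) + X : E[X]).natDegree = Nat.card k ^ r := by
      compute_degree!
      · rw [if_neg (by omega)]
        norm_num
      · omega
    have h1 := card_le_of_roots (p := X ^ (Nat.card k ^ r) + X) (K := E) (S := Set.univ) ?_ hdeg.le ?_
    · rw [Nat.card_univ, hcardE] at h1
      have h2 := Nat.pow_lt_pow_right hs1 (show r < 2 * r by omega)
      omega
    · intro h0
      rw [h0, natDegree_zero] at hdeg
      omega
    · intro x _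
      rw [eval_add, eval_pow, eval_X, ← hσ, add_comm]
      exact hcon x
  · rw [hcardE, hcardK, ← pow_add, ← pow_add]
    refine le_of_eq ?_
    congr 1
    ring

end Pool.Agent.Helper68.DQ
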